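import Pool.Agent.W661.RC.Stm

set_option autoImplicit false

namespace Pool.Agent.W924.RC

open Matrix Pool.Agent.W661.RC
open scoped ComplexOrder

variable {d : ℕ}

lemma tr_add (x y : Mt d) : tr (x + y) = tr x + tr y := by
  simp [tr, Matrix.trace_add]

lemma tr_sub (x y : Mt d) : tr (x - y) = tr x - tr y := by
  simp [tr, Matrix.trace_sub]

lemma tr_nonneg {x : Mt d} (h : x.PosSemidef) : 0 ≤ tr x := by
  have h1 := h.trace_nonneg
  rw [Complex.le_def] at h1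
  exact h1.1

lemma hs_eq (x : Mt d) : hs x = tr (xᴴ * x) := by
  rw [tr, Matrix.trace, hs, Finset.sum_comm, Complex.re_sum]
  refine Finset.sum_congr rfl fun j _ => ?_
  rw [Matrix.diag_apply, Matrix.mul_apply, Complex.re_sum]
  refine Finset.sum_congr rfl fun i _ => ?_
  rw [Matrix.conjTranspose_apply, ← Complex.normSq_eq_norm_sq, Complex.star_def,
    Complex.normSq_eq_conj_mul_self.symm, Complex.ofReal_re]

lemma hs_eq' (x : Mt d) : hs x = tr (x * xᴴ) := by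
  rw [hs_eq, tr, tr, Matrix.trace_mul_comm]

lemma hs_nonneg (x : Mt d) : 0 ≤ hs x :=
  Finset.sum_nonneg fun _ _ => Finset.sum_nonneg fun _ _ => sq_nonneg _

open scoped MatrixOrder in
lemma psd_factor {b : Mt d} (hb : b.PosSemidef) : ∃ c : Mt d, b = cᴴ * c :=
  CStarAlgebra.nonneg_iff_eq_star_mul_self.mp hb.nonneg

lemma tr_mul_nonneg {a b : Mt d} (ha : a.PosSemidef) (hb : b.PosSemidef) : 0 ≤ tr (a * b) := by
  obtain ⟨c, rfl⟩ := psd_factor hb
  have h : tr (a * (cᴴ * c)) = tr (c * a * cᴴ) := by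
    rw [tr, tr, ← Matrix.mul_assoc, Matrix.trace_mul_comm, Matrix.mul_assoc]
  rw [h]
  exact tr_nonneg (ha.mul_mul_conjTranspose_same c)

lemma psd_of_pr {p : Mt d} (h : IsPr p) : p.PosSemidef := by
  have h1 : p = pᴴ * p := by rw [h.1, h.2]
  rw [h1]
  exact Matrix.posSemidef_conjTranspose_mul_self p

lemma pr_compl {p : Mt d} (h : IsPr p) : IsPr (1 - p) := by
  refine ⟨by rw [Matrix.conjTranspose_sub, Matrix.conjTranspose_one, h.1], ?_⟩
  rw [Matrix.sub_mul, Matrix.mul_sub, Matrix.mul_sub, Matrix.one_mul, Matrix.mul_one,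
    Matrix.one_mul, h.2, sub_self, sub_zero]

/-- left multiplication by a contraction -/
lemma hs_mul_left {a b : Mt d} (h : Le (aᴴ * a) 1) : hs (a * b) ≤ hs b := by
  have h1 : 0 ≤ tr (bᴴ * (1 - aᴴ * a) * b) := tr_nonneg (h.conjTranspose_mul_mul_same b)
  have h2 : bᴴ * (1 - aᴴ * a) * b = bᴴ * b - (a * b)ᴴ * (a * b) := by
    rw [Matrix.conjTranspose_mul]
    noncomm_ring
  rw [h2, tr_sub, ← hs_eq, ← hs_eq] at h1
  linarith

/-- right multiplication by a contraction -/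
lemma hs_mul_right {a b : Mt d} (h : Le (a * aᴴ) 1) : hs (b * a) ≤ hs b := by
  have h1 : 0 ≤ tr (b * (1 - a * aᴴ) * bᴴ) := tr_nonneg (h.mul_mul_conjTranspose_same b)
  have h2 : b * (1 - a * aᴴ) * bᴴ = b * bᴴ - (b * a) * (b * a)ᴴ := by
    rw [Matrix.conjTranspose_mul]
    noncomm_ring
  rw [h2, tr_sub, ← hs_eq', ← hs_eq'] at h1
  linarith

lemma le_flip {y : Mt d} (h : Le (yᴴ * y) 1) : Le (y * yᴴ) 1 := by
  have h1 : (1 : Mt d) - y * yᴴ = (1 - y * yᴴ)ᴴ * (1 - y * yᴴ) + y * (1 - yᴴ * y) * yᴴ := by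
    rw [Matrix.conjTranspose_sub, Matrix.conjTranspose_mul, Matrix.conjTranspose_conjTranspose,
      Matrix.conjTranspose_one]
    noncomm_ring
  unfold Le
  rw [h1]
  exact (Matrix.posSemidef_conjTranspose_mul_self _).add (h.mul_mul_conjTranspose_same y)

lemma le_pr {p : Mt d} (h : IsPr p) : Le (pᴴ * p) 1 := by
  unfold Le
  rw [h.1, h.2]
  exact psd_of_pr (pr_compl h)

lemma le_pr' {p : Mt d} (h : IsPr p) : Le (p * pᴴ) 1 := by
  unfold Le
  rw [h.1, h.2]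
  exact psd_of_pr (pr_compl h)

/-- products of contractions -/
lemma le_mul {a b : Mt d} (ha : Le (aᴴ * a) 1) (hb : Le (bᴴ * b) 1) : Le ((a * b)ᴴ * (a * b)) 1 := by
  have h1 : (1 : Mt d) - (a * b)ᴴ * (a * b) = (1 - bᴴ * b) + bᴴ * (1 - aᴴ * a) * b := by
    rw [Matrix.conjTranspose_mul]
    noncomm_ring
  unfold Le
  rw [h1]
  exact hb.add (ha.conjTranspose_mul_mul_same b)

lemma hs_add (a b : Mt d) : hs (a + b) ≤ 2 * (hs a + hs b) := by
  simp only [hs, Finset.mul_sum, ← Finset.sum_add_distrib]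
  refine Finset.sum_le_sum fun i _ => Finset.sum_le_sum fun j _ => ?_
  rw [Matrix.add_apply]
  have h1 := norm_add_le (a i j) (b i j)
  have h2 := norm_nonneg (a i j + b i j)
  nlinarith [sq_nonneg (‖a i j‖ - ‖b i j‖), norm_nonneg (a i j), norm_nonneg (b i j)]

lemma hs_add3 (a b c : Mt d) : hs (a + b + c) ≤ 3 * (hs a + hs b + hs c) := by
  simp only [hs, Finset.mul_sum, ← Finset.sum_add_distrib]
  refine Finset.sum_le_sum fun i _ => Finset.sum_le_sum fun j _ => ?_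
  rw [Matrix.add_apply, Matrix.add_apply]
  have h1 := norm_add₃_le (a := a i j) (b := b i j) (c := c i j)
  have h2 := norm_nonneg (a i j + b i j + c i j)
  have h3 : ‖a i j + b i j + c i j‖ ^ 2 ≤ (‖a i j‖ + ‖b i j‖ + ‖c i j‖) ^ 2 := by
    gcongr
  nlinarith [sq_nonneg (‖a i j‖ - ‖b i j‖), sq_nonneg (‖a i j‖ - ‖c i j‖),
    sq_nonneg (‖b i j‖ - ‖c i j‖)]

lemma hs_neg_comm (a b : Mt d) : hs (a - b) = hs (b - a) := by
  simp only [hs, Matrix.sub_apply]
  refine Finset.sum_congr rfl fun i _ => Finset.sum_congr rfl fun j _ => ?_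
  rw [norm_sub_rev]

lemma hs_zero : hs (0 : Mt d) = 0 := by simp [hs]

lemma mul_of_iso {v q : Mt d} (hq : IsPr q) (h : vᴴ * v = q) : v * q = v := by
  have h1 : (v - v * q)ᴴ * (v - v * q) = 0 := by
    rw [Matrix.conjTranspose_sub, Matrix.conjTranspose_mul, hq.1]
    have e : (vᴴ - q * vᴴ) * (v - v * q) =
      vᴴ * v - (vᴴ * v) * q - q * (vᴴ * v) + q * (vᴴ * v) * q := by noncomm_ring
    rw [e, h, hq.2, hq.2]
    noncomm_ring
  rw [Matrix.conjTranspose_mul_self_eq_zero, sub_eq_zero] at h1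
  exact h1.symm

/-- energy of a product -/
lemma en_mul {k : ℕ} (u : Fin k → Mt d) {q q' y : Mt d} (hq : IsPr q) (hq' : IsPr q')
    (hy : Le (yᴴ * y) 1) : en u (q' * y * q) ≤ 3 * (en u q' + en u y + en u q) := by
  unfold en
  rw [← Finset.sum_add_distrib, ← Finset.sum_add_distrib, Finset.mul_sum]
  refine Finset.sum_le_sum fun s _ => ?_
  have e : u s * (q' * y * q) - q' * y * q * u s =
      (u s * q' - q' * u s) * (y * q) + q' * (u s * y - y * u s) * q +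
        q' * y * (u s * q - q * u s) := by noncomm_ring
  rw [e]
  refine (hs_add3 _ _ _).trans ?_
  have h1 : hs ((u s * q' - q' * u s) * (y * q)) ≤ hs (u s * q' - q' * u s) :=
    hs_mul_right (le_flip (le_mul hy (le_pr hq)))
  have h2 : hs (q' * (u s * y - y * u s) * q) ≤ hs (u s * y - y * u s) :=
    (hs_mul_right (le_pr' hq)).trans (hs_mul_left (le_pr hq'))
  have h3 : hs (q' * y * (u s * q - q * u s)) ≤ hs (u s * q - q * u s) :=
    hs_mul_left (le_mul (le_pr hq') hy)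
  linarith

theorem main (hP : PolP) : IntP := by
  intro d k C η δ S C2 ζ q q' x hη hC hC2 hζ hζη hq hq' htq htq' hG hG' hen hen' hD hD' hx hx0 hex
  set γ : ℝ := 1 / (1000 * (k + 1) * C2 * C) with hγ
  have hk : (0 : ℝ) ≤ k := Nat.cast_nonneg k
  have hden : (0 : ℝ) < 1000 * (k + 1) * C2 * C := by positivity
  have hγ0 : 0 < γ := by positivity
  have hγ1 : 1000 * (k + 1) * C2 * C * γ = 1 := by
    rw [hγ]
    field_simp
  have hkC : (1 : ℝ) ≤ (k + 1) * C2 := by nlinarith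
  have hkCC : (1 : ℝ) ≤ (k + 1) * C2 * C := by nlinarith
  have hC2C : C2 ≤ (k + 1) * C2 * C := by
    have : C2 * 1 ≤ C2 * ((k + 1) * C) := by
      apply mul_le_mul_of_nonneg_left _ (by linarith)
      nlinarith
    linarith
  have hγs : γ ≤ 1 / 1000 := by nlinarith
  have hC2γ : C2 * γ ≤ 1 / 1000 := by nlinarith
  have hkC2 : (k + 1) * C2 ≤ (k + 1) * C2 * C := by nlinarith
  -- step 1
  have hs1 : C2 * (2 * γ + ζ) ≤ 3 * (C2 * γ) := by nlinarith
  obtain ⟨v1, hv1, hv1', ht1, he1⟩ := hP d k S.u C2 ζ γ q q' x S.hu hq hq' htq htq' hC2 hζ hγ0.le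
    hG hG' hx hx0 hex (by linarith)
  have htq1 : tr q' ≤ 101 / 100 * tr q := by
    refine ht1.trans ?_
    apply mul_le_mul_of_nonneg_right _ htq.le
    linarith
  have he1' : C * en S.u v1 ≤ 102 / 1000 * tr q := by
    have h1 : 6 * γ + 32 * k * (C2 * (2 * γ + ζ)) ≤ 102 * ((k + 1) * C2 * γ) := by
      have h2 : 32 * (k : ℝ) * (C2 * (2 * γ + ζ)) ≤ 32 * k * (3 * (C2 * γ)) :=
        mul_le_mul_of_nonneg_left hs1 (by positivity)
      have h3 : γ ≤ C2 * γ := by nlinarith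
      nlinarith
    have h4 : C * en S.u v1 ≤ C * (102 * ((k + 1) * C2 * γ) * tr q) := by
      apply mul_le_mul_of_nonneg_left _ (by linarith)
      exact he1.trans (mul_le_mul_of_nonneg_right h1 htq.le)
    have h5 : C * (102 * ((k + 1) * C2 * γ) * tr q) =
        102 / 1000 * (1000 * (k + 1) * C2 * C * γ) * tr q := by ring
    rw [h5, hγ1, mul_one] at h4
    exact h4
  have hsv : hs v1 = tr q := by rw [hs_eq, hv1]
  have hvq : v1 * q = v1 := mul_of_iso hq hv1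
  -- step 2
  have hδ : 0 ≤ δ := by
    have h1 := tr_mul_nonneg S.hD (psd_of_pr hq)
    by_contra h
    push Not at h
    nlinarith
  have hp : IsPr (v1 * v1ᴴ) := by
    refine ⟨by rw [Matrix.conjTranspose_mul, Matrix.conjTranspose_conjTranspose], ?_⟩
    have : v1 * v1ᴴ * (v1 * v1ᴴ) = v1 * (v1ᴴ * v1) * v1ᴴ := by noncomm_ring
    rw [this, hv1, hvq]
  have hqp : q' * (v1 * v1ᴴ) = v1 * v1ᴴ := by rw [← Matrix.mul_assoc, hv1']
  have hpq : (v1 * v1ᴴ) * q' = v1 * v1ᴴ := by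
    have h1 := congrArg Matrix.conjTranspose hqp
    rw [Matrix.conjTranspose_mul, hp.1, hq'.1] at h1
    exact h1
  have hpr2 : IsPr (q' - v1 * v1ᴴ) := by
    refine ⟨by rw [Matrix.conjTranspose_sub, hp.1, hq'.1], ?_⟩
    rw [Matrix.sub_mul, Matrix.mul_sub, Matrix.mul_sub, hq'.2, hqp, hpq, hp.2, sub_self, sub_zero]
  have hDv : tr (S.D * (v1 * v1ᴴ + v1ᴴ * v1)) ≤ δ * hs v1 := by
    have h1 := tr_mul_nonneg S.hD (psd_of_pr hpr2)
    rw [Matrix.mul_sub, tr_sub] at h1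
    rw [hv1, Matrix.mul_add, tr_add, hsv]
    have h2 : δ / 4 * tr q' ≤ δ / 4 * (101 / 100 * tr q) :=
      mul_le_mul_of_nonneg_left htq1 (by linarith)
    have h3 : 0 ≤ δ * tr q := mul_nonneg hδ htq.le
    nlinarith
  -- step 3
  obtain ⟨hs3, hs3'⟩ := S.smooth v1 hDv
  rw [hsv] at hs3 hs3'
  have hη1 : η ≤ 1 / 1000 := by linarith
  have hd : hs (S.Φ v1 - v1) ≤ 11 / 100 * tr q := by
    have : η * tr q ≤ 1 / 1000 * tr q := mul_le_mul_of_nonneg_right hη1 htq.le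
    linarith
  have hctr : Le ((S.Φ v1)ᴴ * S.Φ v1) 1 := by
    apply S.ctr
    rw [hv1]
    have h1 := le_pr hq
    rwa [hq.1, hq.2] at h1
  -- step 5
  have hx2 : q' * (q' * S.Φ v1 * q) * q = q' * S.Φ v1 * q := by
    have : q' * (q' * S.Φ v1 * q) * q = (q' * q') * S.Φ v1 * (q * q) := by noncomm_ring
    rw [this, hq'.2, hq.2]
  have hd2 : hs (q' * S.Φ v1 * q - v1) ≤ 11 / 100 * tr q := by
    have h1 : q' * S.Φ v1 * q - v1 = q' * (S.Φ v1 - v1) * q := by
      rw [Matrix.mul_sub, Matrix.sub_mul, hv1', hvq]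
    rw [h1]
    exact ((hs_mul_right (le_pr' hq)).trans (hs_mul_left (le_pr hq'))).trans hd
  have hlow : tr q / 4 ≤ hs (q' * S.Φ v1 * q) := by
    have h1 := hs_add (q' * S.Φ v1 * q) (v1 - q' * S.Φ v1 * q)
    rw [add_sub_cancel, hsv, hs_neg_comm v1] at h1
    linarith
  have hx20 : q' * S.Φ v1 * q ≠ 0 := by
    intro h
    rw [h, hs_zero] at hlow
    linarith
  -- step 6
  have hen2 : en S.u (q' * S.Φ v1 * q) ≤ 28 * (ζ + η) * hs (q' * S.Φ v1 * q) := by
    refine (en_mul S.u hq hq' hctr).trans ?_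
    have h1 : en S.u q' ≤ ζ * (101 / 100 * tr q) :=
      hen'.trans (mul_le_mul_of_nonneg_left htq1 hζ)
    have h2 : 28 * (ζ + η) * (tr q / 4) ≤ 28 * (ζ + η) * hs (q' * S.Φ v1 * q) :=
      mul_le_mul_of_nonneg_left hlow (by positivity)
    have h3 : 0 ≤ ζ * tr q := mul_nonneg hζ htq.le
    have h4 : 0 ≤ η * tr q := mul_nonneg hη.le htq.le
    nlinarith
  -- step 7
  have hs2 : C2 * (2 * (28 * (ζ + η)) + ζ) ≤ 57 * (C2 * (ζ + η)) := by nlinarith
  have hs2' : C2 * (ζ + η) ≤ C2 * γ := mul_le_mul_of_nonneg_left hζη (by linarith)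
  obtain ⟨v, hv, hv', ht2, he2⟩ := hP d k S.u C2 ζ (28 * (ζ + η)) q q' (q' * S.Φ v1 * q) S.hu hq
    hq' htq htq' hC2 hζ (by positivity) hG hG' hx2 hx20 hen2 (by linarith)
  refine ⟨v, hv, hv', ht2.trans ?_, he2.trans ?_⟩
  · apply mul_le_mul_of_nonneg_right _ htq.le
    have : 0 ≤ C2 * (ζ + η) := by positivity
    linarith
  · apply mul_le_mul_of_nonneg_right _ htq.le
    have h1 : 32 * (k : ℝ) * (C2 * (2 * (28 * (ζ + η)) + ζ)) ≤ 32 * k * (57 * (C2 * (ζ + η))) :=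
      mul_le_mul_of_nonneg_left hs2 (by positivity)
    have h2 : ζ + η ≤ C2 * (ζ + η) := by nlinarith
    have h3 : 0 ≤ k * (C2 * (ζ + η)) := by positivity
    have h4 : 3000 * ((k : ℝ) + 1) * C2 * (ζ + η) =
      3000 * (k * (C2 * (ζ + η))) + 3000 * (C2 * (ζ + η)) := by ring
    rw [h4]
    linarith

end Pool.Agent.W924.RC
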